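import Mathlib
import Pool.Agent.HYI.Base
import Pool.Agent.HYI.Api

/-! The quadratic extension `K / ℚ(x)`: every element is `a + b v`. -/

namespace HYG

open Polynomial HYI Pool.Agent.Helper11 Pool.Agent.ISI

theorem exists_ab {r : ℕ} {P : Fin (r + 1) → ℤ[X]} {e : Fin (r + 1) → ℕ} {c κ ε : ℤ} {K : Type}
    [Field K] [CharZero K] {x : K} {v : Kˣ} (H : Cur P e c κ ε x v) (h : K) :
    ∃ a ∈ IntermediateField.adjoin ℚ {x}, ∃ b ∈ IntermediateField.adjoin ℚ {x}, h = a + b * v := by
  have hf : aeval x (fp P e c κ) ∈ IntermediateField.adjoin ℚ {x} := by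
    rw [← aeval_fQ]
    exact IntermediateField.algebra_adjoin_le_adjoin ℚ {x} (aeval_mem_adjoin_singleton ℚ x)
  have hε : ((ε : ℤ) : K) ∈ IntermediateField.adjoin ℚ {x} := intCast_mem _ ε
  have hint : IsIntegral (IntermediateField.adjoin ℚ {x}) (v : K) := by
    refine ⟨X ^ 2 - C ⟨_, hf⟩ * X + C ⟨_, hε⟩, ?_, ?_⟩
    · monicity!
    · rw [eval₂_add, eval₂_sub, eval₂_mul, eval₂_pow, eval₂_X, eval₂_C, eval₂_C]
      exact H.h
  have htop : IntermediateField.adjoin (IntermediateField.adjoin ℚ {x}) {(v : K)} = ⊤ := by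
    rw [eq_top_iff]
    intro k _
    have hk : k ∈ IntermediateField.adjoin ℚ {x, (v : K)} := by
      rw [H.hK]
      exact IntermediateField.mem_top
    have hF : ∀ y ∈ IntermediateField.adjoin ℚ {x},
        y ∈ IntermediateField.adjoin (IntermediateField.adjoin ℚ {x}) {(v : K)} := fun y hy =>
      IntermediateField.algebraMap_mem _ (⟨y, hy⟩ : IntermediateField.adjoin ℚ {x})
    induction hk using IntermediateField.adjoin_induction with
    | mem y hy =>
      rcases hy with hy | hy
      · rw [hy]
        exact hF x (IntermediateField.mem_adjoin_simple_self ℚ x)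
      · rw [Set.mem_singleton_iff] at hy
        rw [hy]
        exact IntermediateField.mem_adjoin_simple_self _ _
    | algebraMap q => exact hF _ (IntermediateField.algebraMap_mem _ q)
    | add y z _ _ hy hz => exact add_mem (hy IntermediateField.mem_top) (hz IntermediateField.mem_top)
    | inv y _ hy => exact inv_mem (hy IntermediateField.mem_top)
    | mul y z _ _ hy hz => exact mul_mem (hy IntermediateField.mem_top) (hz IntermediateField.mem_top)
  have hmem : h ∈ Algebra.adjoin (IntermediateField.adjoin ℚ {x}) {(v : K)} := by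
    rw [← IntermediateField.adjoin_simple_toSubalgebra_of_isAlgebraic hint.isAlgebraic, htop]
    exact Algebra.mem_top
  induction hmem using Algebra.adjoin_induction with
  | mem y hy =>
    rw [Set.mem_singleton_iff] at hy
    exact ⟨0, zero_mem _, 1, one_mem _, by rw [hy, zero_add, one_mul]⟩
  | algebraMap y => exact ⟨y, y.2, 0, zero_mem _, by rw [zero_mul, add_zero]; rfl⟩
  | add y z _ _ hy hz =>
    obtain ⟨a, ha, b, hb, rfl⟩ := hy
    obtain ⟨a', ha', b', hb', rfl⟩ := hz
    exact ⟨a + a', add_mem ha ha', b + b', add_mem hb hb', by ring⟩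
  | mul y z _ _ hy hz =>
    obtain ⟨a, ha, b, hb, rfl⟩ := hy
    obtain ⟨a', ha', b', hb', rfl⟩ := hz
    refine ⟨a * a' - b * b' * ε, sub_mem (mul_mem ha ha') (mul_mem (mul_mem hb hb') hε),
      a * b' + b * a' + b * b' * aeval x (fp P e c κ),
      add_mem (add_mem (mul_mem ha hb') (mul_mem hb ha')) (mul_mem (mul_mem hb hb') hf), ?_⟩
    linear_combination b * b' * H.h

end HYG
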