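import Mathlib
import Pool.Agent.Helper11.Defs
import Pool.Agent.HYI.Defs

/-! Definitions for the statement: slices of the part of `K_2` given by `w`. -/

namespace HYG

open Polynomial Pool.Agent.Helper11 HYI

/-- The group of the nonzero rational functions of `x`. -/
def ratGroup {K : Type} [Field K] [CharZero K] (x : K) : Subgroup Kˣ :=
  Subgroup.closure {u | ∃ p : ℚ[X], (u : K) = aeval x p}

/-- The subgroup of `ratGroup x` generated by the `P i (x)` and by all the `p(x) ≠ 0`, `p ∈ ℚ[X]`,
for which `w` is not a root of unity at the zeros of `p(x)`. -/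
def avoidGroup {r : ℕ} (P : Fin (r + 1) → ℤ[X]) (f : ℤ[X]) (ε : ℤ) {K : Type} [Field K] [CharZero K]
    (x : K) : Subgroup Kˣ :=
  Subgroup.closure ({u | ∃ i, (u : K) = aeval x (P i)} ∪
    {u | ∃ p : ℚ[X], Avoids f ε p ∧ (u : K) = aeval x p})

/-- The integral elements of the span of the symbols `{v, h}`, `h ∈ Kˣ` an element whose norm to
`ℚ(x)` is in `G`, and of the symbols of two rational functions of `x`. -/
noncomputable def intSlice {K : Type} [Field K] [CharZero K] (G : Subgroup Kˣ) (x : K) (v : Kˣ) :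
    Submodule ℚ (K2Q K) :=
  Submodule.span ℚ ({z | ∃ h : Kˣ, (∃ u ∈ G, (u : K) =
      (Algebra.norm (IntermediateField.adjoin ℚ {x}) (h : K) : K)) ∧ z = sym v h} ∪
    {z | ∃ a ∈ ratGroup x, ∃ b ∈ ratGroup x, z = sym a b}) ⊓ integralPart K

end HYG
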