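import Mathlib
import Pool.Agent.HYI.Base
import Pool.Agent.HYI.Api
import Pool.Agent.HYG.Ab

/-! HYG-Kil (the symbol `{v, h / σ h}` comes from `ℚ(x)`).

`h = a + b v` (`exists_ab`), `a, b ∈ F = ℚ(x)`. Every nonzero element of `F` is `pq x p / pq x q`, `p, q ≠ 0`
(`IntermediateField.mem_adjoin_simple_iff`: quotient of `aeval x p`, `aeval x q`), so the symbol of two units with values in `F` is
in `LP x` (`sy_div_left`, `sy_div_right`). `σ` fixes `F` pointwise, `σ v = ε / v`. Signs: `sy u (±1) = 0`, `sy (±1) u = 0`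
(`2 sy u (-1) = sy u 1 = 0`). If `b = 0`: `h / σ h = 1`. If `a = 0`: `h / σ h = v / σ v = v² / ε`, `sy v v = 0`. Otherwise put
`c = b / a`, `h = a (1 + c v)`, `h / σ h = (1 + c v) / (1 + c σ v)` (both nonzero). `sy_steinberg` for `-(c v)`, `1 + c v`:
`sy v (1 + c v) = - sy c (1 + c v)`; with `v' = σ v = ε / v`: `sy v' (1 + c v') = - sy c (1 + c v')` and
`sy v (1 + c v') = - sy v' (1 + c v') = sy c (1 + c v')`. So `sy v (h / σ h) = - sy c (1 + c v) - sy c (1 + c v') =
- sy c ((1 + c v)(1 + c v'))` and `(1 + c v)(1 + c v') = 1 + c f(x) + ε c² ∈ F` (`v + v' = f(x)`, `v v' = ε`). -/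

namespace HYG

open Polynomial HYI Pool.Agent.Helper11 Pool.Agent.ISI

private lemma kil_neg_one {K : Type} [Field K] (u : Kˣ) : sy u (-1) = 0 := by
  have h := sy_mul_right u (-1) (-1)
  rw [neg_mul_neg, one_mul, sy_one_right] at h
  have h2 : (2 : ℚ) • sy u (-1) = 0 := by
    rw [two_smul]
    exact h.symm
  exact (smul_eq_zero.1 h2).resolve_left two_ne_zero

private lemma kil_sign {K : Type} [Field K] (u e : Kˣ) (he : e = 1 ∨ e = -1) :
    sy u e = 0 ∧ sy e u = 0 := by
  have h : sy u e = 0 := by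
    rcases he with rfl | rfl
    · exact sy_one_right u
    · exact kil_neg_one u
  refine ⟨h, ?_⟩
  rw [sy_anti, h, neg_zero]

private lemma kil_quot {K : Type} [Field K] [CharZero K] {x : K} (hx : Transcendental ℚ x)
    (u : Kˣ) (hu : (u : K) ∈ IntermediateField.adjoin ℚ {x}) :
    ∃ p q : ℚ[X], p ≠ 0 ∧ q ≠ 0 ∧ u = pq x p / pq x q := by
  obtain ⟨r, s, hrs⟩ := (IntermediateField.mem_adjoin_simple_iff ℚ (u : K)).1 hu
  have hr : r ≠ 0 := by
    rintro rfl
    rw [map_zero, zero_div] at hrs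
    exact u.ne_zero hrs
  have hs : s ≠ 0 := by
    rintro rfl
    rw [map_zero, div_zero] at hrs
    exact u.ne_zero hrs
  refine ⟨r, s, hr, hs, ?_⟩
  apply Units.ext
  rw [Units.val_div_eq_div_val, pq_val hx hr, pq_val hx hs, hrs]

private lemma kil_mem {K : Type} [Field K] [CharZero K] {x : K} (hx : Transcendental ℚ x)
    (u w : Kˣ) (hu : (u : K) ∈ IntermediateField.adjoin ℚ {x})
    (hw : (w : K) ∈ IntermediateField.adjoin ℚ {x}) : sy u w ∈ LP x := by
  obtain ⟨p, q, hp, hq, rfl⟩ := kil_quot hx u hu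
  obtain ⟨p', q', hp', hq', rfl⟩ := kil_quot hx w hw
  have hmem : ∀ r s : ℚ[X], r ≠ 0 → s ≠ 0 → sy (pq x r) (pq x s) ∈ LP x :=
    fun r s hr hs => Submodule.subset_span ⟨r, s, hr, hs, rfl⟩
  rw [sy_div_left, sy_div_right, sy_div_right]
  exact sub_mem (sub_mem (hmem _ _ hp hp') (hmem _ _ hp hq'))
    (sub_mem (hmem _ _ hq hp') (hmem _ _ hq hq'))

private lemma kil_fix {K : Type} [Field K] [CharZero K] {x : K} (σ : K ≃+* K) (hσx : σ x = x)
    {a : K} (ha : a ∈ IntermediateField.adjoin ℚ {x}) : σ a = a := by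
  obtain ⟨r, s, rfl⟩ := (IntermediateField.mem_adjoin_simple_iff ℚ a).1 ha
  have h : ∀ p : ℚ[X], σ (aeval x p) = aeval x p := by
    intro p
    have h1 := Polynomial.hom_eval₂ p (algebraMap ℚ K) (σ : K →+* K) x
    have h2 : (σ : K →+* K).comp (algebraMap ℚ K) = algebraMap ℚ K := Subsingleton.elim _ _
    rw [h2] at h1
    change σ (aeval x p) = eval₂ (algebraMap ℚ K) (σ x) p at h1
    rw [hσx] at h1
    exact h1
  rw [map_div₀, h, h]

theorem kill {r : ℕ} {P : Fin (r + 1) → ℤ[X]} {e : Fin (r + 1) → ℕ} {c κ ε : ℤ} {K : Type}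
    [Field K] [CharZero K] {x : K} {v : Kˣ} (H : Cur P e c κ ε x v) (σ : K ≃+* K)
    (hσx : σ x = x) (hσv : σ v = ε / v) (h : Kˣ) :
    sy v (h / Units.map ((σ : K →+* K) : K →* K) h) ∈ LP x := by
  obtain ⟨a, ha, b, hb, hab⟩ := exists_ab H (h : K)
  have hF0 : aeval x (fp P e c κ) ∈ IntermediateField.adjoin ℚ {x} := by
    rw [← aeval_fQ]
    have h1 : x ∈ IntermediateField.adjoin ℚ {x} := IntermediateField.mem_adjoin_simple_self ℚ x
    have h2 : aeval x (fQ P e c κ) =
        ((aeval (⟨x, h1⟩ : IntermediateField.adjoin ℚ {x}) (fQ P e c κ) :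
          IntermediateField.adjoin ℚ {x}) : K) := by
      have h3 := Polynomial.aeval_algHom_apply (IntermediateField.adjoin ℚ {x}).val
        (⟨x, h1⟩ : IntermediateField.adjoin ℚ {x}) (fQ P e c κ)
      exact h3
    rw [h2]
    exact Subtype.property _
  -- the sign as a unit
  obtain ⟨εu, hεu, hε1⟩ : ∃ εu : Kˣ, (εu : K) = ε ∧ (εu = 1 ∨ εu = -1) := by
    rcases H.hε with h1 | h1
    · exact ⟨1, by rw [h1]; simp, Or.inl rfl⟩
    · exact ⟨-1, by rw [h1]; simp, Or.inr rfl⟩
  have hσh : σ h = a + b * (ε / v) := by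
    rw [hab, map_add, map_mul, kil_fix σ hσx ha, kil_fix σ hσx hb, hσv]
  set s : Kˣ := Units.map ((σ : K →+* K) : K →* K) h with hs
  have hsv : (s : K) = a + b * (ε / v) := hσh
  have hv : (v : K) ≠ 0 := v.ne_zero
  by_cases hb0 : b = 0
  · have h1 : h = s := by
      apply Units.ext
      rw [hsv, hab, hb0]
      ring
    rw [← h1, div_self', sy_one_right]
    exact zero_mem _
  by_cases ha0 : a = 0
  · have h1 : h / s = v * v / εu := by
      rw [div_eq_div_iff_mul_eq_mul]
      apply Units.ext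
      rw [Units.val_mul, Units.val_mul, Units.val_mul, hsv, hab, ha0, hεu]
      field_simp
      ring
    rw [h1, sy_div_right, sy_mul_right, sy_self, (kil_sign v εu hε1).1]
    simp
  · set cu : Kˣ := Units.mk0 b hb0 / Units.mk0 a ha0 with hcu
    have hcv : (cu : K) = b / a := by
      rw [hcu, Units.val_div_eq_div_val, Units.val_mk0, Units.val_mk0]
    have hcF : (cu : K) ∈ IntermediateField.adjoin ℚ {x} := by
      rw [hcv]
      exact div_mem hb ha
    set u1 : Kˣ := h / Units.mk0 a ha0 with hu1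
    set u2 : Kˣ := s / Units.mk0 a ha0 with hu2
    have h1v : (u1 : K) = 1 + cu * v := by
      rw [hu1, Units.val_div_eq_div_val, Units.val_mk0, hab, hcv]
      field_simp
    have h2v : (u2 : K) = 1 + cu * (ε / v) := by
      rw [hu2, Units.val_div_eq_div_val, Units.val_mk0, hsv, hcv]
      field_simp
    have h12 : h / s = u1 / u2 := by
      rw [hu1, hu2, div_div_div_cancel_right]
    have hS1 : sy (-1 * cu * v) u1 = 0 := by
      apply sy_steinberg
      rw [h1v]
      simp
    have hS2 : sy (-1 * cu * (εu / v)) u2 = 0 := by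
      apply sy_steinberg
      rw [h2v]
      simp [hεu, Units.val_div_eq_div_val]
    rw [sy_mul_left, sy_mul_left, (kil_sign u1 (-1) (Or.inr rfl)).2, zero_add] at hS1
    rw [sy_mul_left, sy_mul_left, (kil_sign u2 (-1) (Or.inr rfl)).2, zero_add,
      sy_div_left u2 εu v, (kil_sign u2 εu hε1).2, zero_sub] at hS2
    have hT : sy v (h / s) = - sy cu (u1 * u2) := by
      rw [h12, sy_div_right, sy_mul_right, eq_neg_of_add_eq_zero_right hS1]
      have h3 : sy v u2 = sy cu u2 := by
        rw [add_neg_eq_zero] at hS2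
        exact hS2.symm
      rw [h3]
      abel
    rw [hT]
    refine neg_mem (kil_mem H.hx cu (u1 * u2) hcF ?_)
    have hval : ((u1 * u2 : Kˣ) : K) = 1 + cu * aeval x (fp P e c κ) + cu * cu * ε := by
      rw [Units.val_mul, h1v, h2v]
      have h4 : aeval x (fp P e c κ) = v + ε / v := by
        have h5 := H.h
        field_simp
        linear_combination -h5
      rw [h4]
      field_simp
      ring
    rw [hval]
    exact add_mem (add_mem (one_mem _) (mul_mem hcF hF0))
      (mul_mem (mul_mem hcF hcF) (intCast_mem _ ε))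

end HYG
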