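import Mathlib
import Pool.Agent.HYI.Base
import Pool.Agent.HYI.Api
import Pool.Agent.HYG.Ab

/-! The quadratic extension `K / ℚ(x)`: in the basis `1, v` the multiplication by `h = a + b v` has the
determinant `a² + a b f(x) + ε b² = (a + b v)(a + b σ v)`, `σ v = ε / v = f(x) - v`. -/

namespace HYG

open Polynomial HYI Pool.Agent.Helper11 Pool.Agent.ISI

private theorem nrm_fix {K : Type} [Field K] [CharZero K] {x : K} (σ : K ≃+* K) (hσx : σ x = x)
    {a : K} (ha : a ∈ IntermediateField.adjoin ℚ {x}) : σ a = a := by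
  refine IntermediateField.adjoin_induction ℚ (p := fun y _ => σ y = y) ?_ ?_ ?_ ?_ ?_ ha
  · intro y hy
    rw [Set.mem_singleton_iff] at hy
    rw [hy, hσx]
  · intro q
    rw [eq_ratCast, map_ratCast]
  · intro y z _ _ hy hz
    rw [map_add, hy, hz]
  · intro y _ hy
    rw [map_inv₀, hy]
  · intro y z _ _ hy hz
    rw [map_mul, hy, hz]

private theorem nrm_basis {K : Type} [Field K] [CharZero K] (F : IntermediateField ℚ K) {v : K}
    (hv : v ∉ F) (hs : ∀ h : K, ∃ a ∈ F, ∃ b ∈ F, h = a + b * v) :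
    ∃ B : Module.Basis (Fin 2) F K, B 0 = 1 ∧ B 1 = v := by
  have hli : LinearIndependent F ![(1 : K), v] := by
    rw [LinearIndependent.pair_iff]
    intro s t hst
    have h1 : (s : K) + t * v = 0 := by
      have h2 := hst
      rw [IntermediateField.smul_def, IntermediateField.smul_def, smul_eq_mul, smul_eq_mul,
        mul_one] at h2
      exact h2
    have ht : (t : K) = 0 := by
      by_contra h0
      apply hv
      have h2 : v = -(s : K) * (t : K)⁻¹ := by
        field_simp
        linear_combination h1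
      rw [h2]
      exact F.mul_mem (F.neg_mem s.2) (F.inv_mem t.2)
    have hs0 : (s : K) = 0 := by
      rw [ht, zero_mul, add_zero] at h1
      exact h1
    exact ⟨Subtype.ext hs0, Subtype.ext ht⟩
  have hsp : ⊤ ≤ Submodule.span F (Set.range ![(1 : K), v]) := by
    intro h _
    obtain ⟨a, ha, b, hb, rfl⟩ := hs h
    have h1 : a + b * v = (⟨a, ha⟩ : F) • (1 : K) + (⟨b, hb⟩ : F) • v := by
      rw [IntermediateField.smul_def, IntermediateField.smul_def, smul_eq_mul, smul_eq_mul,
        mul_one]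
    rw [h1]
    refine Submodule.add_mem _ (Submodule.smul_mem _ _ (Submodule.subset_span ⟨0, rfl⟩))
      (Submodule.smul_mem _ _ (Submodule.subset_span ⟨1, rfl⟩))
  refine ⟨Module.Basis.mk hli hsp, ?_, ?_⟩
  · rw [Module.Basis.mk_apply]
    rfl
  · rw [Module.Basis.mk_apply]
    rfl

private theorem nrm_det {K : Type} [Field K] [CharZero K] (F : IntermediateField ℚ K) {v : K}
    (B : Module.Basis (Fin 2) F K) (h0 : B 0 = 1) (h1 : B 1 = v) (h : K) (a b c d : F)
    (e0 : h = a + b * v) (e1 : h * v = c + d * v) :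
    Algebra.norm F h = a * d - c * b := by
  have f0 : h * B 0 = a • B 0 + b • B 1 := by
    rw [h0, h1, IntermediateField.smul_def, IntermediateField.smul_def, smul_eq_mul, smul_eq_mul,
      mul_one, mul_one, e0]
  have f1 : h * B 1 = c • B 0 + d • B 1 := by
    rw [h0, h1, IntermediateField.smul_def, IntermediateField.smul_def, smul_eq_mul, smul_eq_mul,
      mul_one, e1]
  rw [Algebra.norm_eq_matrix_det B, Matrix.det_fin_two]
  simp only [Algebra.leftMulMatrix_eq_repr_mul, f0, f1, map_add, map_smul,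
    Module.Basis.repr_self, Finsupp.add_apply, Finsupp.smul_apply, Finsupp.single_apply]
  simp

theorem norm_eq {r : ℕ} {P : Fin (r + 1) → ℤ[X]} {e : Fin (r + 1) → ℕ} {c κ ε : ℤ} {K : Type}
    [Field K] [CharZero K] {x : K} {v : Kˣ} (H : Cur P e c κ ε x v) (σ : K ≃+* K)
    (hσx : σ x = x) (hσv : σ v = ε / v) (h : K) :
    (Algebra.norm (IntermediateField.adjoin ℚ {x}) h : K) = h * σ h := by
  obtain ⟨B, h0, h1⟩ := nrm_basis (IntermediateField.adjoin ℚ {x}) H.v_not_mem (exists_ab H)
  obtain ⟨a, ha, b, hb, rfl⟩ := exists_ab H h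
  have hf : aeval x (fp P e c κ) ∈ IntermediateField.adjoin ℚ {x} := by
    rw [← aeval_fQ]
    exact IntermediateField.algebra_adjoin_le_adjoin ℚ {x} (Polynomial.aeval_mem_adjoin_singleton ℚ x)
  have hε : (ε : K) ∈ IntermediateField.adjoin ℚ {x} := intCast_mem _ ε
  have hv0 : (v : K) ≠ 0 := v.ne_zero
  have hh := H.h
  have hnorm := nrm_det (IntermediateField.adjoin ℚ {x}) B h0 h1 (a + b * v) ⟨a, ha⟩ ⟨b, hb⟩
    (-(⟨_, hε⟩ * ⟨b, hb⟩)) (⟨a, ha⟩ + ⟨b, hb⟩ * ⟨_, hf⟩) rfl (by
      push_cast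
      linear_combination b * hh)
  rw [hnorm, map_add, map_mul, hσv, nrm_fix σ hσx ha, nrm_fix σ hσx hb]
  push_cast
  have hfv : aeval x (fp P e c κ) = v + ε / v := by
    field_simp
    linear_combination -hh
  rw [hfv]
  field_simp
  ring

end HYG
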