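import Mathlib
import Pool.Agent.HYI.Main
import Pool.Agent.HYF.Main
import Pool.Agent.HYG.Defs
import Pool.Agent.HYG.Nrm
import Pool.Agent.HYG.Kil

/-! The slice of `w`: integral elements of the span of the symbols `{w, h}` and of `K_2` of `ℚ(x)`. -/

namespace HYG

open Polynomial HYI Pool.Agent.Helper11 Pool.Agent.ISI

private lemma co_quad (f ε : ℂ) : ∃ b : ℂ, b ^ 2 - f * b + ε = 0 := by
  obtain ⟨s, hs⟩ := IsAlgClosed.exists_pow_nat_eq (f ^ 2 / 4 - ε) (n := 2) (by norm_num)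
  exact ⟨f / 2 + s, by linear_combination hs⟩

private lemma co_eval {K : Type} [Field K] [CharZero K] {x : K} (O : ValuationSubring K)
    (ρ : O →+* ℂ) (hq : ∀ q : ℚ, (q : K) ∈ O) (h1 : x ∈ O) {a : ℂ} (ha : ρ ⟨x, h1⟩ = a)
    (p : ℚ[X]) : ∃ h : aeval x p ∈ O, ρ ⟨aeval x p, h⟩ = aeval a p := by
  induction p using Polynomial.induction_on' with
  | add p q hp hq' =>
    obtain ⟨h3, h4⟩ := hp
    obtain ⟨h5, h6⟩ := hq'
    refine ⟨by rw [map_add]; exact add_mem h3 h5, ?_⟩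
    have e : (⟨aeval x (p + q), by rw [map_add]; exact add_mem h3 h5⟩ : O) =
        ⟨aeval x p, h3⟩ + ⟨aeval x q, h5⟩ := by
      apply Subtype.ext
      simp
    rw [e, map_add, map_add, h4, h6]
  | monomial n q =>
    have h3 : aeval x (monomial n q) = (q : K) * x ^ n := by
      rw [aeval_monomial, eq_ratCast]
    have h4 : aeval a (monomial n q) = (q : ℂ) * a ^ n := by
      rw [aeval_monomial, eq_ratCast]
    let ι : ℚ →+* O := (algebraMap ℚ K).codRestrict O.toSubring fun q => by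
      rw [eq_ratCast]
      exact hq q
    have h5 : ρ (ι q) = (q : ℂ) := eq_ratCast (ρ.comp ι) q
    have h6 : aeval x (monomial n q) ∈ O := by
      rw [h3]
      exact mul_mem (hq q) (pow_mem h1 n)
    refine ⟨h6, ?_⟩
    have e : (⟨aeval x (monomial n q), h6⟩ : O) = ι q * ⟨x, h1⟩ ^ n := by
      apply Subtype.ext
      refine h3.trans ?_
      change (q : K) * x ^ n = (algebraMap ℚ K q) * x ^ n
      rw [eq_ratCast]
    rw [e, map_mul, map_pow, h5, ha, h4]

private lemma co_neg_one {K : Type} [Field K] (h : Kˣ) : sy (-1 : Kˣ) h = 0 := by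
  have h1 := sy_mul_left (-1 : Kˣ) (-1 : Kˣ) h
  have h2 := sy_mul_left (1 : Kˣ) (1 : Kˣ) h
  rw [one_mul] at h2
  rw [neg_mul_neg, one_mul, left_eq_add.1 h2] at h1
  have h3 : (2 : ℚ) • sy (-1 : Kˣ) h = 0 := by
    rw [two_smul]
    exact h1.symm
  exact (smul_eq_zero.1 h3).resolve_left two_ne_zero

private lemma co_inv_left {K : Type} [Field K] (u h : Kˣ) : sy u⁻¹ h = - sy u h := by
  have h1 := sy_zpow_left h u (-1)
  rw [zpow_neg_one] at h1
  rw [h1]
  simp

variable {r : ℕ} {P : Fin (r + 1) → ℤ[X]} {e : Fin (r + 1) → ℕ} {c κ ε : ℤ} {K : Type}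
    [Field K] [CharZero K] {x : K} {v : Kˣ}

/-- an integral element of the symbols of rational functions of `x` is zero -/
theorem lp_zero (H : Cur P e c κ ε x v) {y : KMQ K 2} (hy : y ∈ LP x)
    (hi : y ∈ integralM K 2) : y = 0 := by
  have h1 := milnor H.hx (∅ : Set ℚ) hy (by
    intro π hπ hirr _
    obtain ⟨a, ha⟩ := IsAlgClosed.exists_aeval_eq_zero ℂ π (degree_pos_of_irreducible hirr).ne'
    obtain ⟨b, hb⟩ := co_quad (aeval a (fp P e c κ)) (ε : ℂ)
    obtain ⟨O, ρ, hdvr, hρ, hq, ⟨hx, hρx⟩, _, _⟩ := H.place a b π hπ.ne_zero ha hb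
    refine ⟨O, hdvr, hq, hx, ?_, ?_⟩
    · obtain ⟨h2, h3⟩ := co_eval O ρ hq hx hρx π
      exact (hρ ⟨_, h2⟩).1 (by rw [h3, ha])
    · rw [integralM, Submodule.mem_iInf] at hi
      have h4 := hi O
      rw [Submodule.mem_iInf] at h4
      exact h4 hdvr)
  have h2 : {v : KMQ K 2 | ∃ s ∈ (∅ : Set ℚ), ∃ q : ℚˣ,
      v = sy (pq x (X - C s)) (cst K q)} = ∅ := by
    ext v
    simp
  rw [h2, Submodule.span_empty] at h1
  exact (Submodule.mem_bot ℚ).1 h1

private lemma co_ratGroup (hx : Transcendental ℚ x) {h : Kˣ} (hh : h ∈ ratGroup x) :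
    ∃ p q : ℚ[X], p ≠ 0 ∧ q ≠ 0 ∧ h = pq x p / pq x q := HYF.xFull_quot hx hh

private lemma co_LP (hx : Transcendental ℚ x) {a b : Kˣ} (ha : a ∈ ratGroup x)
    (hb : b ∈ ratGroup x) : sy a b ∈ LP x := by
  have h3 : ∀ a b : ℚ[X], a ≠ 0 → b ≠ 0 → sy (pq x a) (pq x b) ∈ LP x :=
    fun a b ha hb => Submodule.subset_span ⟨a, b, ha, hb, rfl⟩
  obtain ⟨p, q, hp, hq, rfl⟩ := co_ratGroup hx ha
  obtain ⟨p', q', hp', hq', rfl⟩ := co_ratGroup hx hb
  rw [sy_div_left, sy_div_right, sy_div_right]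
  exact Submodule.sub_mem _ (Submodule.sub_mem _ (h3 _ _ hp hp') (h3 _ _ hp hq'))
    (Submodule.sub_mem _ (h3 _ _ hq hp') (h3 _ _ hq hq'))

/-- decomposition of an element of the span -/
private lemma co_dec (hx : Transcendental ℚ x) (N : Subgroup Kˣ) {z : KMQ K 2}
    (hz : z ∈ Submodule.span ℚ ({t : KMQ K 2 | ∃ h ∈ N, t = sy v h} ∪
      {t | ∃ a ∈ ratGroup x, ∃ b ∈ ratGroup x, t = sy a b})) :
    ∃ (M : ℕ) (h : Kˣ), M ≠ 0 ∧ h ∈ N ∧ (M : ℚ) • z - sy v h ∈ LP x := by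
  refine Submodule.span_induction (p := fun z _ => ∃ (M : ℕ) (h : Kˣ), M ≠ 0 ∧ h ∈ N ∧
    (M : ℚ) • z - sy v h ∈ LP x) ?_ ?_ ?_ ?_ hz
  · rintro z (⟨h, hh, rfl⟩ | ⟨a, ha, b, hb, rfl⟩)
    · refine ⟨1, h, one_ne_zero, hh, ?_⟩
      rw [Nat.cast_one, one_smul, sub_self]
      exact Submodule.zero_mem _
    · refine ⟨1, 1, one_ne_zero, N.one_mem, ?_⟩
      rw [Nat.cast_one, one_smul, sy_one_right, sub_zero]
      exact co_LP hx ha hb
  · refine ⟨1, 1, one_ne_zero, N.one_mem, ?_⟩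
    rw [smul_zero, sy_one_right, sub_zero]
    exact Submodule.zero_mem _
  · rintro z z' _ _ ⟨M, h, hM, hh, h1⟩ ⟨M', h', hM', hh', h1'⟩
    refine ⟨M * M', h ^ (M' : ℤ) * h' ^ (M : ℤ), mul_ne_zero hM hM',
      N.mul_mem (N.zpow_mem hh _) (N.zpow_mem hh' _), ?_⟩
    have h2 : ((M * M' : ℕ) : ℚ) • (z + z') - sy v (h ^ (M' : ℤ) * h' ^ (M : ℤ)) =
        (M' : ℚ) • ((M : ℚ) • z - sy v h) + (M : ℚ) • ((M' : ℚ) • z' - sy v h') := by
      rw [sy_mul_right, sy_zpow_right, sy_zpow_right]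
      push_cast
      rw [smul_sub, smul_sub, smul_smul, smul_smul, smul_add, mul_comm (M' : ℚ) (M : ℚ)]
      abel
    rw [h2]
    exact Submodule.add_mem _ (Submodule.smul_mem _ _ h1) (Submodule.smul_mem _ _ h1')
  · rintro q z _ ⟨M, h, hM, hh, h1⟩
    refine ⟨q.den * M, h ^ q.num, mul_ne_zero q.den_nz hM, N.zpow_mem hh _, ?_⟩
    have h2 : ((q.den * M : ℕ) : ℚ) • (q • z) - sy v (h ^ q.num) =
        (q.num : ℚ) • ((M : ℚ) • z - sy v h) := by
      rw [sy_zpow_right, smul_sub, smul_smul, smul_smul]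
      congr 2
      push_cast
      have h3 : (q.den : ℚ) * q = q.num := by
        rw [mul_comm]
        exact Rat.mul_den_eq_num q
      calc (q.den : ℚ) * M * q = ((q.den : ℚ) * q) * M := by ring
        _ = q.num * M := by rw [h3]
    rw [h2]
    exact Submodule.smul_mem _ _ h1

theorem core_slice (H : Cur P e c κ ε x v) (G : Subgroup Kˣ) (W : Submodule ℚ (KMQ K 2))
    (hcore : ∀ h ∈ G, sy h v ∈ integralM K 2 → sy h v ∈ W) {z : KMQ K 2}
    (hz : z ∈ Submodule.span ℚ ({t : KMQ K 2 | ∃ h : Kˣ, (∃ u ∈ G, (u : K) =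
      (Algebra.norm (IntermediateField.adjoin ℚ {x}) (h : K) : K)) ∧ t = sy v h} ∪
      {t | ∃ a ∈ ratGroup x, ∃ b ∈ ratGroup x, t = sy a b})) (hi : z ∈ integralM K 2) :
    z ∈ W := by
  obtain ⟨σ, hσx, hσv⟩ := H.invol
  set S : Kˣ →* Kˣ := Units.map (((σ : K →+* K)) : K →* K) with hS
  have hpq : ∀ p : ℚ[X], p ≠ 0 → S (pq x p) = pq x p := by
    intro p hp
    apply Units.ext
    rw [hS, Units.coe_map, pq_val H.hx hp]
    change σ (aeval x p) = aeval x p
    have h1 := aeval_algHom_apply ((σ : K →+* K).toRatAlgHom) x p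
    have h2 : (σ : K →+* K).toRatAlgHom x = x := hσx
    rw [h2] at h1
    exact h1.symm
  have hLPfix : ∀ y ∈ LP x, KMQ.map (σ : K →+* K) 2 y = y := by
    intro y hy
    refine Submodule.span_induction (p := fun y _ => KMQ.map (σ : K →+* K) 2 y = y) ?_ ?_ ?_ ?_ hy
    · rintro y ⟨p, q, hp, hq, rfl⟩
      rw [map_sy, ← hS, hpq p hp, hpq q hq]
    · exact map_zero _
    · intro y y' _ _ h1 h2
      rw [map_add, h1, h2]
    · intro s y _ h1
      rw [map_smul, h1]
  let N : Subgroup Kˣ := G.comap (MonoidHom.id Kˣ * S)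
  have hz' : z ∈ Submodule.span ℚ ({t : KMQ K 2 | ∃ h ∈ N, t = sy v h} ∪
      {t | ∃ a ∈ ratGroup x, ∃ b ∈ ratGroup x, t = sy a b}) := by
    refine Submodule.span_mono ?_ hz
    rintro t (⟨h, ⟨u, hu, hun⟩, rfl⟩ | ht)
    · left
      refine ⟨h, ?_, rfl⟩
      change h * S h ∈ G
      have h1 : h * S h = u := by
        apply Units.ext
        rw [hun, norm_eq H σ hσx hσv, Units.val_mul]
        rfl
      rw [h1]
      exact hu
    · exact Or.inr ht
  obtain ⟨M, h, hM, hh, hy⟩ := co_dec H.hx N hz'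
  have hhG : h * S h ∈ G := hh
  set y := (M : ℚ) • z - sy v h with hyd
  have hMz : (M : ℚ) • z = sy v h + y := by
    rw [hyd]
    abel
  have hSv : ∀ u : Kˣ, sy (S v) u = - sy v u := by
    intro u
    rcases H.hε with h0 | h0
    · have h1 : S v = v⁻¹ := by
        apply Units.ext
        rw [hS, Units.coe_map, Units.val_inv_eq_inv_val]
        change σ (v : K) = _
        rw [hσv, h0]
        simp
      rw [h1, co_inv_left]
    · have h1 : S v = (-1) * v⁻¹ := by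
        apply Units.ext
        rw [hS, Units.coe_map, Units.val_mul, Units.val_inv_eq_inv_val]
        change σ (v : K) = _
        rw [hσv, h0]
        simp [neg_div]
      rw [h1, sy_mul_left, co_neg_one, zero_add, co_inv_left]
  have hMz' : (M : ℚ) • KMQ.map (σ : K →+* K) 2 z = - sy v (S h) + y := by
    rw [← map_smul, hMz, map_add, hLPfix y hy, map_sy, ← hS, hSv]
  have hi' : KMQ.map (σ : K →+* K) 2 z ∈ integralM K 2 := map_integral σ hi
  have hsum : (M : ℚ) • z + (M : ℚ) • KMQ.map (σ : K →+* K) 2 z = 0 := by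
    apply lp_zero H
    · have h1 : (M : ℚ) • z + (M : ℚ) • KMQ.map (σ : K →+* K) 2 z = sy v (h / S h) + (y + y) := by
        rw [hMz, hMz', sy_div_right]
        abel
      rw [h1]
      exact Submodule.add_mem _ (kill H σ hσx hσv h) (Submodule.add_mem _ hy hy)
    · exact Submodule.add_mem _ (Submodule.smul_mem _ _ hi) (Submodule.smul_mem _ _ hi')
  have hdiff : (2 : ℚ) • ((M : ℚ) • z) = sy v (h * S h) := by
    have h1 : (2 : ℚ) • ((M : ℚ) • z) =
        ((M : ℚ) • z + (M : ℚ) • KMQ.map (σ : K →+* K) 2 z) +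
          ((M : ℚ) • z - (M : ℚ) • KMQ.map (σ : K →+* K) 2 z) := by
      rw [two_smul]
      abel
    rw [h1, hsum, zero_add, hMz, hMz', sy_mul_right]
    abel
  have h2M : (2 * M : ℚ) ≠ 0 := mul_ne_zero two_ne_zero (Nat.cast_ne_zero.2 hM)
  have hzz : z = (-(2 * M : ℚ)⁻¹) • sy (h * S h) v := by
    have h1 : sy (h * S h) v = - ((2 * M : ℚ) • z) := by
      rw [sy_anti, ← hdiff, smul_smul]
    rw [h1, neg_smul, smul_neg, neg_neg, smul_smul, inv_mul_cancel₀ h2M, one_smul]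
  have hint : sy (h * S h) v ∈ integralM K 2 := by
    rw [sy_anti, ← hdiff]
    exact Submodule.neg_mem _ (Submodule.smul_mem _ _ (Submodule.smul_mem _ _ hi))
  rw [hzz]
  exact Submodule.smul_mem _ _ (hcore _ hhG hint)

/-- the case of the restricted group -/
theorem core_avoid (H : Cur P e c κ ε x v) (u : Fin r → Kˣ)
    (hu : ∀ i, (u i : K) = aeval x (P i.succ) ^ (P 0).natDegree /
      aeval x (P 0) ^ (P i.succ).natDegree) {h : Kˣ}
    (hh : h ∈ avoidGroup P (fp P e c κ) ε x) (hi : sy h v ∈ integralM K 2) :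
    sy h v ∈ Submodule.span ℚ (Set.range fun i => sy (u i) v) := by
  refine core H (Submodule.subset_span ⟨h, ?_, v, ?_, rfl⟩) hi u hu
  · rw [funGroup_eq]
    exact Subgroup.mem_sup_left hh
  · exact Subgroup.subset_closure (Or.inl (Or.inl rfl))

/-- the case of all rational functions -/
theorem core_rat (H : Cur P e c κ ε x v) (hT : HYF.TwoPrimes (∑ i, e i * (P i).natDegree) c)
    (u : Fin r → Kˣ) (hu : ∀ i, (u i : K) = aeval x (P i.succ) ^ (P 0).natDegree /
      aeval x (P 0) ^ (P i.succ).natDegree) {h : Kˣ}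
    (hh : h ∈ ratGroup x) (hi : sy h v ∈ integralM K 2) :
    sy h v ∈ Submodule.span ℚ (Set.range fun i => sy (u i) v) := by
  obtain ⟨h', hh', he⟩ := HYF.repl H hT (h := h) hh
  rw [he] at hi ⊢
  exact core_avoid H u hu hh' hi

end HYG
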