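import Mathlib
import Pool.Agent.HYG.Core

/-! The main theorem for the slice of `w`. -/

namespace HYG

open Polynomial HYI HYF Pool.Agent.Helper11 Pool.Agent.ISI

variable {r : ℕ} {P : Fin (r + 1) → ℤ[X]} {e : Fin (r + 1) → ℕ} {c κ ε : ℤ} {K : Type}
  [Field K] [CharZero K] {x : K} {v : Kˣ}

private lemma main_le (H : Cur P e c κ ε x v) (G : Subgroup Kˣ) (u : Fin r → Kˣ)
    (hcore : ∀ h ∈ G, sy h v ∈ integralM K 2 →
      sy h v ∈ Submodule.span ℚ (Set.range fun i => sy (u i) v)) :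
    intSlice G x v ≤ Submodule.span ℚ (Set.range fun i => sym (u i) v) := by
  obtain ⟨F, F', hF, hF', hFF, hFi⟩ := exists_bri K
  intro z hz
  obtain ⟨hz1, hz2⟩ := Submodule.mem_inf.1 hz
  have h1 : F z ∈ Submodule.span ℚ ({t : KMQ K 2 | ∃ h : Kˣ, (∃ u ∈ G, (u : K) =
      (Algebra.norm (IntermediateField.adjoin ℚ {x}) (h : K) : K)) ∧ t = sy v h} ∪
      {t | ∃ a ∈ ratGroup x, ∃ b ∈ ratGroup x, t = sy a b}) := by
    have h2 := Submodule.mem_map_of_mem (f := F) hz1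
    rw [Submodule.map_span] at h2
    refine Submodule.span_mono ?_ h2
    rintro _ ⟨_, (⟨h, hh, rfl⟩ | ⟨a, ha, b, hb, rfl⟩), rfl⟩
    · exact Or.inl ⟨h, hh, hF v h⟩
    · exact Or.inr ⟨a, ha, b, hb, hF a b⟩
  have h3 := core_slice H G _ hcore h1 (hFi z hz2)
  have h4 := Submodule.mem_map_of_mem (f := F') h3
  rw [hFF, Submodule.map_span] at h4
  refine Submodule.span_mono ?_ h4
  rintro _ ⟨_, ⟨i, rfl⟩, rfl⟩
  exact ⟨i, (hF' _ _).symm⟩

private lemma main_ge (H : Cur P e c κ ε x v) (G : Subgroup Kˣ) (hG : G ≤ ratGroup x)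
    (u : Fin r → Kˣ) (hu : ∀ i, u i ∈ G) (hi : ∀ i, sym (u i) v ∈ integralPart K) :
    Submodule.span ℚ (Set.range fun i => sym (u i) v) ≤ intSlice G x v := by
  obtain ⟨F, F', hF, hF', hFF, hFi⟩ := exists_bri K
  obtain ⟨σ, hσx, hσv⟩ := H.invol
  rw [Submodule.span_le]
  rintro _ ⟨i, rfl⟩
  refine Submodule.mem_inf.2 ⟨?_, hi i⟩
  have h1 : sym (u i) v = - sym v (u i) := by
    rw [← hF' (u i) v, ← hF' v (u i), sy_anti, map_neg]
  change sym (u i) v ∈ _
  rw [h1]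
  refine Submodule.neg_mem _ (Submodule.subset_span (Or.inl ⟨u i, ⟨u i * u i, ?_, ?_⟩, rfl⟩))
  · exact G.mul_mem (hu i) (hu i)
  · rw [norm_eq H σ hσx hσv, Units.val_mul]
    congr 1
    obtain ⟨p, q, hp, hq, h2⟩ := xFull_quot H.hx (h := u i) (hG (hu i))
    have h3 : ∀ p : ℚ[X], σ (aeval x p) = aeval x p := by
      intro p
      have h4 := aeval_algHom_apply ((σ : K →+* K).toRatAlgHom) x p
      have h5 : (σ : K →+* K).toRatAlgHom x = x := hσx
      rw [h5] at h4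
      exact h4.symm
    rw [h2, Units.val_div_eq_div_val, pq_val H.hx hp, pq_val H.hx hq, _root_.map_div₀, h3, h3]

theorem main (hm : ∀ i, (P i).Monic) (hi : ∀ i, Irreducible (P i))
    (hd : Function.Injective P) (he : ∀ i, e i ≠ 0) (hc : c ≠ 0)
    (hκ : (ε = 1 ∧ |κ| ≤ 2) ∨ (ε = -1 ∧ κ = 0))
    {x w : K} (hx : Transcendental ℚ x)
    (hK : IntermediateField.adjoin ℚ {x, w} = ⊤)
    (h : w + ε * w⁻¹ = c * ∏ i, (aeval x (P i)) ^ e i + κ) :
    ∃ (u : Fin r → Kˣ) (v : Kˣ), (v : K) = w ∧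
      (∀ i, (u i : K) = aeval x (P i.succ) ^ (P 0).natDegree /
        aeval x (P 0) ^ (P i.succ).natDegree) ∧
      intSlice (avoidGroup P (C c * ∏ i, P i ^ e i + C κ) ε x) x v =
        Submodule.span ℚ (Set.range fun i => sym (u i) v) ∧
      (TwoPrimes (∑ i, e i * (P i).natDegree) c →
        intSlice (ratGroup x) x v = Submodule.span ℚ (Set.range fun i => sym (u i) v)) ∧
      ∃ (n : ℕ) (R : Fin n → (K2Q K →ₗ[ℚ] ℝ)),
        (∀ j, ∃ γ : K →+* LoopRing, ∀ f g : Kˣ,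
          R j (sym f g) = regInt (γ (f : K) : ℝ → ℂ) (γ (g : K) : ℝ → ℂ)) ∧
        BPG.genus (BPG.disc P e c κ ε) ≤ Module.finrank ℝ (Submodule.span ℝ
            (Set.range fun (i : Fin r) (j : Fin n) => R j (sym (u i) v))) +
          ∑ i, ((P i).natDegree * (if |κ| = 2 then (e i + 1) / 2 else e i) - 1) := by
  obtain ⟨u, v, hv, hu, hint, n, R, hR, hg⟩ := BPG.main hm hi hd he hc hκ hx hK h
  subst hv
  have H : Cur P e c κ ε x v := by
    refine ⟨hm, hi, hd, he, hc, hκ, hx, hK, ?_⟩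
    rw [aeval_fp]
    have hv0 : (v : K) ≠ 0 := v.ne_zero
    rw [← h]
    field_simp
    ring
  have hf : C c * ∏ i, P i ^ e i + C κ = fp P e c κ := rfl
  have hsub : avoidGroup P (fp P e c κ) ε x ≤ ratGroup x := by
    unfold avoidGroup
    rw [Subgroup.closure_le]
    rintro t (⟨i, ht⟩ | ⟨p, _, ht⟩)
    · refine Subgroup.subset_closure ⟨(P i).map (Int.castRingHom ℚ), ?_⟩
      rw [ht, aeval_map]
    · exact Subgroup.subset_closure ⟨p, ht⟩
  have hua : ∀ i, u i ∈ avoidGroup P (fp P e c κ) ε x := by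
    intro i
    have hP : ∀ j, ∃ t : Kˣ, (t : K) = aeval x (P j) ∧ t ∈ avoidGroup P (fp P e c κ) ε x :=
      fun j => ⟨pz x (P j), pz_val hx (hm j).ne_zero, Subgroup.subset_closure
        (Or.inl ⟨j, pz_val hx (hm j).ne_zero⟩)⟩
    obtain ⟨t, ht, htm⟩ := hP i.succ
    obtain ⟨t0, ht0, ht0m⟩ := hP 0
    have h1 : u i = t ^ (P 0).natDegree / t0 ^ (P i.succ).natDegree := by
      apply Units.ext
      rw [hu i, Units.val_div_eq_div_val, Units.val_pow_eq_pow_val, Units.val_pow_eq_pow_val,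
        ht, ht0]
    rw [h1]
    exact Subgroup.div_mem _ (Subgroup.pow_mem _ htm _) (Subgroup.pow_mem _ ht0m _)
  rw [hf]
  refine ⟨u, v, rfl, hu, ?_, fun hT => ?_, n, R, hR, hg⟩
  · exact le_antisymm (main_le H _ u fun h hh hi => core_avoid H u hu hh hi)
      (main_ge H _ hsub u hua hint)
  · exact le_antisymm (main_le H _ u fun h hh hi => core_rat H hT u hu hh hi)
      (main_ge H _ le_rfl u (fun i => hsub (hua i)) hint)

end HYG
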